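import Pool.Agent.helper82.T5.SpecS

set_option autoImplicit false

namespace Pool.Agent.T5

open Finset NumberField Pool.Agent.helper3.FT Pool.Agent.helper47.RA

lemma SQ4_alg (n k m g Z L R C D : ℤ) (hn : n ≠ 0) (h1 : L * n ^ 2 = m * g + Z * k ^ 2)
    (h3 : n * R = g ^ 2 - L * k ^ 2) (h4 : n * C = Z * g + L * m)
    (h5 : D * k ^ 2 = C ^ 2 - 4 * Z * L ^ 2) (q n' : ℤ) (hq : n = q * n') :
    q ∣ k ^ 8 * D - m * (k ^ 2 * m * R ^ 2 + 4 * g ^ 5) := by
  have hC : k ^ 2 * C = L * n * g - m * R := by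
    apply mul_left_cancel₀ hn
    linear_combination k ^ 2 * h4 - g * h1 + m * h3
  refine ⟨n' * (k ^ 2 * (L ^ 2 * n * g ^ 2 - 2 * L * g * m * R) - 4 * L * n * (g ^ 2 - n * R) ^ 2 +
    4 * m * g * (-2 * g ^ 2 * R + n * R ^ 2)), ?_⟩
  have hZ : Z * k ^ 2 = L * n ^ 2 - m * g := by linarith
  have hL : L * k ^ 2 = g ^ 2 - n * R := by linarith
  have e1 : k ^ 8 * D = k ^ 2 * (k ^ 2 * C) ^ 2 - 4 * (Z * k ^ 2) * (L * k ^ 2) ^ 2 := by
    linear_combination k ^ 6 * h5
  rw [e1, hC, hZ, hL]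
  rw [← mul_assoc, ← hq]
  ring

theorem SQ4 (hAIST : AIST_stmt) : SQ4_stmt := by
  refine ⟨?_, ?_⟩
  · intro t p ht hp hpn
    obtain ⟨h1, -, h3, ⟨A, C, -, hC, -, -, h5⟩, -, -⟩ := hAIST t ht
    obtain ⟨n', hn'⟩ := hpn
    have hn0 : (t.1.1 : ℤ) ≠ 0 := by
      have := ht.n1
      positivity
    refine SQ4_alg (t.1.1 : ℤ) (t.1.2 : ℤ) t.2.1 t.2.2.1 t.2.2.2 (lam t) (RR' t) C (dis t) hn0 h1 h3
      hC h5 (p : ℤ) (n' : ℤ) ?_
    rw [hn']; push_cast; ring
  · intro p hp hp2 k hk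
    have : Fact p.Prime := ⟨hp⟩
    have h2 : (2 : ZMod p) ≠ 0 := by
      intro h
      have h' : ((2 : ℕ) : ZMod p) = 0 := by exact_mod_cast h
      rw [ZMod.natCast_eq_zero_iff] at h'
      exact hp2 ((Nat.prime_dvd_prime_iff_eq hp Nat.prime_two).mp h')
    have h4 : (4 : ZMod p) ≠ 0 := by
      have : (4 : ZMod p) = 2 * 2 := by norm_num
      rw [this]; exact mul_ne_zero h2 h2
    classical
    let f1 : ZMod p × ZMod p → ZMod p × ZMod p × ZMod p := fun y => (0, y.1, y.2)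
    let f2 : ZMod p × ZMod p → ZMod p × ZMod p × ZMod p := fun y =>
      if y.2 = 0 then (y.1, 0, 0) else (-(4 * y.1 ^ 5) / (k ^ 2 * y.2 ^ 2), y.1, y.2)
    have hsub : {x : ZMod p × ZMod p × ZMod p |
        x.1 * (k ^ 2 * x.1 * x.2.2 ^ 2 + 4 * x.2.1 ^ 5) = 0} ⊆ Set.range f1 ∪ Set.range f2 := by
      rintro ⟨m, g, r⟩ hx
      have hx' : m * (k ^ 2 * m * r ^ 2 + 4 * g ^ 5) = 0 := hx
      rcases mul_eq_zero.mp hx' with hm | hm
      · left
        exact ⟨(g, r), by simp only [f1]; rw [hm]⟩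
      · right
        by_cases hr : r = 0
        · refine ⟨(m, 0), ?_⟩
          have hg : g = 0 := by
            rw [hr] at hm
            have : 4 * g ^ 5 = 0 := by linear_combination hm
            rcases mul_eq_zero.mp this with h | h
            · exact absurd h h4
            · exact pow_eq_zero_iff (by norm_num) |>.mp h
          simp only [f2, if_true, hr, hg]
        · refine ⟨(g, r), ?_⟩
          simp only [f2, hr, if_false]
          have hne : k ^ 2 * r ^ 2 ≠ 0 := mul_ne_zero (pow_ne_zero 2 hk) (pow_ne_zero 2 hr)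
          have : -(4 * g ^ 5) / (k ^ 2 * r ^ 2) = m := by
            rw [div_eq_iff hne]
            linear_combination -hm
          rw [this]
    have hr : ∀ f : ZMod p × ZMod p → ZMod p × ZMod p × ZMod p, (Set.range f).ncard ≤ p ^ 2 := by
      intro f
      rw [← Set.image_univ]
      refine (Set.ncard_image_le Set.finite_univ).trans ?_
      rw [Set.ncard_univ, Nat.card_prod, Nat.card_zmod, sq]
    calc _ ≤ (Set.range f1 ∪ Set.range f2).ncard :=
          Set.ncard_le_ncard hsub (Set.toFinite _)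
      _ ≤ (Set.range f1).ncard + (Set.range f2).ncard := Set.ncard_union_le _ _
      _ ≤ p ^ 2 + p ^ 2 := Nat.add_le_add (hr f1) (hr f2)
      _ = 2 * p ^ 2 := by ring

end Pool.Agent.T5
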