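import Mathlib
import Pool.Agent.helper94.T5.SpecV

set_option autoImplicit false

namespace Pool.Agent.T5V

open MeasureTheory Set Filter Topology
open scoped ENNReal

namespace VFRaux

/-- the five functions on the product -/
noncomputable def lx (x : ℝ × ℝ × ℝ × ℝ × ℝ) : ℝ := La x.1 x.2.1 x.2.2.1 x.2.2.2.1 x.2.2.2.2
noncomputable def wx (x : ℝ × ℝ × ℝ × ℝ × ℝ) : ℝ := Wd x.1 x.2.1 x.2.2.1 x.2.2.2.1 x.2.2.2.2
noncomputable def sx (x : ℝ × ℝ × ℝ × ℝ × ℝ) : ℝ := S1 x.1 x.2.1 x.2.2.1 x.2.2.2.1 x.2.2.2.2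
noncomputable def tx (x : ℝ × ℝ × ℝ × ℝ × ℝ) : ℝ := S2 x.1 x.2.1 x.2.2.1 x.2.2.2.1 x.2.2.2.2

lemma lx_meas : Measurable lx := by
  unfold lx La; fun_prop

lemma wx_meas : Measurable wx := by
  unfold wx Wd La; fun_prop

lemma sx_meas : Measurable sx := by
  unfold sx S1
  have h1 : Measurable (fun x : ℝ × ℝ × ℝ × ℝ × ℝ => Wd x.1 x.2.1 x.2.2.1 x.2.2.2.1 x.2.2.2.2) :=
    wx_meas
  have h2 : Measurable (fun x : ℝ × ℝ × ℝ × ℝ × ℝ => La x.1 x.2.1 x.2.2.1 x.2.2.2.1 x.2.2.2.2) :=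
    lx_meas
  fun_prop

lemma tx_meas : Measurable tx := by
  unfold tx S2
  have h1 : Measurable (fun x : ℝ × ℝ × ℝ × ℝ × ℝ => Wd x.1 x.2.1 x.2.2.1 x.2.2.2.1 x.2.2.2.2) :=
    wx_meas
  have h2 : Measurable (fun x : ℝ × ℝ × ℝ × ℝ × ℝ => La x.1 x.2.1 x.2.2.1 x.2.2.2.1 x.2.2.2.2) :=
    lx_meas
  fun_prop

/-- the exceptional condition on `(Z, l, w, s, t)` -/
def Cs (κ : ℝ) : Set (ℝ × ℝ × ℝ × ℝ × ℝ) :=
  {x | x.1 = 1 / 2 ∨ x.1 = 1 ∨ x.2.1 = κ ∨ x.2.1 = √ x.2.2.1 ∨ x.2.2.1 = 1 / 2 ∨ x.2.2.1 = 1 ∨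
    x.2.2.2.1 = κ ∨ x.2.2.2.2 = κ}

lemma Cs_meas (κ : ℝ) : MeasurableSet (Cs κ) := by
  have h : ∀ f g : ℝ × ℝ × ℝ × ℝ × ℝ → ℝ, Measurable f → Measurable g →
      MeasurableSet {x | f x = g x} := fun f g hf hg => measurableSet_eq_fun hf hg
  refine MeasurableSet.union (h _ _ (by fun_prop) (by fun_prop)) ?_
  refine MeasurableSet.union (h _ _ (by fun_prop) (by fun_prop)) ?_
  refine MeasurableSet.union (h _ _ (by fun_prop) (by fun_prop)) ?_
  refine MeasurableSet.union (h _ _ (by fun_prop) (by fun_prop)) ?_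
  refine MeasurableSet.union (h _ _ (by fun_prop) (by fun_prop)) ?_
  refine MeasurableSet.union (h _ _ (by fun_prop) (by fun_prop)) ?_
  exact MeasurableSet.union (h _ _ (by fun_prop) (by fun_prop)) (h _ _ (by fun_prop) (by fun_prop))

/-- the null set containing the frontier -/
def Ns (κ : ℝ) : Set (ℝ × ℝ × ℝ × ℝ × ℝ) :=
  {x | 0 < x.1 ∧ 0 < x.2.1 ∧ 0 < x.2.2.1 ∧ (0 < lx x ∧ 0 < wx x) ∧
    (x.1, lx x, wx x, sx x, tx x) ∈ Cs κ}

lemma Ns_meas (κ : ℝ) : MeasurableSet (Ns κ) := by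
  have h : ∀ f : ℝ × ℝ × ℝ × ℝ × ℝ → ℝ, Measurable f → MeasurableSet {x | 0 < f x} :=
    fun f hf => measurableSet_lt measurable_const hf
  refine MeasurableSet.inter (h _ (by fun_prop)) ?_
  refine MeasurableSet.inter (h _ (by fun_prop)) ?_
  refine MeasurableSet.inter (h _ (by fun_prop)) ?_
  refine MeasurableSet.inter (MeasurableSet.inter (h _ lx_meas) (h _ wx_meas)) ?_
  have h1 := lx_meas
  have h2 := wx_meas
  have h3 := sx_meas
  have h4 := tx_meas
  have hm : Measurable (fun x : ℝ × ℝ × ℝ × ℝ × ℝ => (x.1, lx x, wx x, sx x, tx x)) := by fun_prop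
  exact hm (Cs_meas κ)

lemma iter5 (h : ℝ × ℝ × ℝ × ℝ × ℝ → ℝ≥0∞) (hh : Measurable h) :
    ∫⁻ x, h x = ∫⁻ Z, ∫⁻ n, ∫⁻ k, ∫⁻ m, ∫⁻ g, h (Z, n, k, m, g) := by
  rw [Measure.volume_eq_prod, lintegral_prod _ hh.aemeasurable]
  refine lintegral_congr fun Z => ?_
  have h1 : Measurable (fun y : ℝ × ℝ × ℝ × ℝ => h (Z, y)) := by fun_prop
  rw [Measure.volume_eq_prod, lintegral_prod _ h1.aemeasurable]
  refine lintegral_congr fun n => ?_
  have h2 : Measurable (fun y : ℝ × ℝ × ℝ => h (Z, n, y)) := by fun_prop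
  rw [Measure.volume_eq_prod, lintegral_prod _ h2.aemeasurable]
  refine lintegral_congr fun k => ?_
  have h3 : Measurable (fun y : ℝ × ℝ => h (Z, n, k, y)) := by fun_prop
  rw [Measure.volume_eq_prod, lintegral_prod _ h3.aemeasurable]

/-- a level set of the sine is null -/
lemma sin_null (κ : ℝ) : ∀ᵐ φ : ℝ, Real.sin φ ≠ κ := by
  by_cases h : ∃ y, Real.sin y = κ
  · obtain ⟨y, hy⟩ := h
    have hc : {φ : ℝ | Real.sin φ = κ}.Countable := by
      refine Set.Countable.mono (s₂ := (Set.range fun k : ℤ => y - 2 * k * Real.pi) ∪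
        (Set.range fun k : ℤ => (2 * k + 1) * Real.pi - y)) ?_
        ((Set.countable_range _).union (Set.countable_range _))
      intro φ hφ
      have hφ' : Real.sin φ = Real.sin y := by rw [hy]; exact hφ
      rw [Real.sin_eq_sin_iff] at hφ'
      obtain ⟨k, hk | hk⟩ := hφ'
      · left; exact ⟨k, by simp only; linarith⟩
      · right; exact ⟨k, by simp only; linarith⟩
    exact compl_mem_ae_iff.mpr (hc.measure_zero _)
  · push Not at h
    exact Filter.Eventually.of_forall h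

lemma ne_null (a : ℝ) : ∀ᵐ z : ℝ, z ≠ a :=
  compl_mem_ae_iff.mpr (measure_singleton a)

open Classical in
lemma Ns_null (hVCV : VCV_stmt) (κ : ℝ) : volume (Ns κ) = 0 := by
  set G : ℝ → ℝ → ℝ → ℝ → ℝ → ℝ≥0∞ := fun Z l w s t =>
    (Cs κ).indicator (fun _ => (1 : ℝ≥0∞)) (Z, l, w, s, t) with hG
  have hGm : Measurable (fun x : ℝ × ℝ × ℝ × ℝ × ℝ =>
      G x.1 x.2.1 x.2.2.1 x.2.2.2.1 x.2.2.2.2) := by
    have : Measurable ((Cs κ).indicator (fun _ => (1 : ℝ≥0∞))) :=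
      measurable_const.indicator (Cs_meas κ)
    exact this
  have hv := hVCV G hGm
  -- the right side vanishes
  have hr : ∫⁻ Z in Ioi (0 : ℝ), ∫⁻ l in Ioi (0 : ℝ), ∫⁻ w in Ioi (0 : ℝ),
      ∫⁻ φ in Ioo 0 Real.pi, ∫⁻ ψ in Ioo 0 Real.pi,
        G Z l w (Real.sin φ) (Real.sin ψ) * ENNReal.ofReal (1 / (2 * w)) = 0 := by
    have z : ∀ (s : Set ℝ) (f : ℝ → ℝ≥0∞), (∀ᵐ x ∂(volume.restrict s), f x = 0) →
        ∫⁻ x in s, f x = 0 := by
      intro s f hf
      rw [lintegral_congr_ae (g := fun _ => 0) hf, lintegral_zero]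
    refine z _ _ ?_
    filter_upwards [ae_restrict_of_ae (ne_null (1 / 2)), ae_restrict_of_ae (ne_null 1)]
      with Z hZ1 hZ2
    refine z _ _ ?_
    filter_upwards [ae_restrict_of_ae (ne_null κ), ae_restrict_mem measurableSet_Ioi] with l hl hl0
    refine z _ _ ?_
    filter_upwards [ae_restrict_of_ae (ne_null (1 / 2)), ae_restrict_of_ae (ne_null 1),
      ae_restrict_of_ae (ne_null (l ^ 2)), ae_restrict_mem measurableSet_Ioi] with w h1 h2 h3 hw
    refine z _ _ ?_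
    filter_upwards [ae_restrict_of_ae (sin_null κ)] with φ hφ
    refine z _ _ ?_
    filter_upwards [ae_restrict_of_ae (sin_null κ)] with ψ hψ
    have hn : (Z, l, w, Real.sin φ, Real.sin ψ) ∉ Cs κ := by
      rintro (h | h | h | h | h | h | h | h)
      · exact hZ1 h
      · exact hZ2 h
      · exact hl h
      · apply h3
        have hw' : (0 : ℝ) ≤ w := le_of_lt hw
        have h' : l = √w := h
        rw [h', Real.sq_sqrt hw']
      · exact h1 h
      · exact h2 h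
      · exact hφ h
      · exact hψ h
    simp only [hG]
    rw [Set.indicator_of_notMem hn, zero_mul]
  rw [hr] at hv
  -- the left side is the integral over the set
  set h : ℝ × ℝ × ℝ × ℝ × ℝ → ℝ≥0∞ := (Ns κ).indicator
    (fun x => ENNReal.ofReal (1 / (x.2.1 ^ 3 * x.2.2.1))) with hh
  have hm : Measurable h := by
    refine Measurable.indicator ?_ (Ns_meas κ)
    fun_prop
  have key : ∫⁻ x, h x = 0 := by
    rw [iter5 h hm, ← hv]
    rw [← lintegral_indicator measurableSet_Ioi]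
    refine lintegral_congr fun Z => ?_
    by_cases hZ : 0 < Z
    swap
    · rw [Set.indicator_of_notMem (by simpa using hZ)]
      have : ∀ n k m g, h (Z, n, k, m, g) = 0 := by
        intro n k m g
        rw [hh, Set.indicator_of_notMem]
        rintro ⟨h1, -⟩
        exact hZ h1
      simp [this]
    rw [Set.indicator_of_mem (show Z ∈ Ioi (0 : ℝ) from hZ)]
    rw [← lintegral_indicator measurableSet_Ioi]
    refine lintegral_congr fun n => ?_
    by_cases hn : 0 < n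
    swap
    · rw [Set.indicator_of_notMem (by simpa using hn)]
      have : ∀ k m g, h (Z, n, k, m, g) = 0 := by
        intro k m g
        rw [hh, Set.indicator_of_notMem]
        rintro ⟨-, h1, -⟩
        exact hn h1
      simp [this]
    rw [Set.indicator_of_mem (show n ∈ Ioi (0 : ℝ) from hn)]
    rw [← lintegral_indicator measurableSet_Ioi]
    refine lintegral_congr fun k => ?_
    by_cases hk : 0 < k
    swap
    · rw [Set.indicator_of_notMem (by simpa using hk)]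
      have : ∀ m g, h (Z, n, k, m, g) = 0 := by
        intro m g
        rw [hh, Set.indicator_of_notMem]
        rintro ⟨-, -, h1, -⟩
        exact hk h1
      simp [this]
    rw [Set.indicator_of_mem (show k ∈ Ioi (0 : ℝ) from hk)]
    refine lintegral_congr fun m => lintegral_congr fun g => ?_
    by_cases hc : 0 < La Z n k m g ∧ 0 < Wd Z n k m g
    · rw [if_pos hc]
      by_cases hC : (Z, La Z n k m g, Wd Z n k m g, S1 Z n k m g, S2 Z n k m g) ∈ Cs κ
      · have hmem : (Z, n, k, m, g) ∈ Ns κ := ⟨hZ, hn, hk, hc, hC⟩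
        rw [hh, Set.indicator_of_mem hmem]
        simp only [hG]
        rw [Set.indicator_of_mem hC, one_mul]
      · have hmem : (Z, n, k, m, g) ∉ Ns κ := fun h' => hC h'.2.2.2.2
        rw [hh, Set.indicator_of_notMem hmem]
        simp only [hG]
        rw [Set.indicator_of_notMem hC, zero_mul]
    · rw [if_neg hc, zero_mul]
      have hmem : (Z, n, k, m, g) ∉ Ns κ := fun h' => hc h'.2.2.2.1
      rw [hh, Set.indicator_of_notMem hmem]
  rw [lintegral_eq_zero_iff hm] at key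
  have : Ns κ ⊆ {x | ¬ (h x = (0 : ℝ × ℝ × ℝ × ℝ × ℝ → ℝ≥0∞) x)} := by
    intro x hx
    simp only [Set.mem_ofPred_eq, Pi.zero_apply]
    rw [hh, Set.indicator_of_mem hx, ENNReal.ofReal_eq_zero, not_le]
    have h1 := hx.2.1
    have h2 := hx.2.2.1
    positivity
  exact measure_mono_null this key

lemma frontier_sub (hVBD : VBD_stmt) (κ : ℝ) (h0 : 0 < κ) (h1 : κ < 1 / 2) :
    frontier (CenR κ) ⊆ Ns κ := by
  intro x hx
  have hcl : x ∈ closure (CenR κ) := frontier_subset_closure hx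
  have hni : x ∉ interior (CenR κ) := hx.2
  have hκ2 : 0 < κ ^ 2 := by positivity
  have le_of : ∀ f g : ℝ × ℝ × ℝ × ℝ × ℝ → ℝ, ContinuousAt f x → ContinuousAt g x →
      (∀ y ∈ CenR κ, f y ≤ g y) → f x ≤ g x := fun f g hf hg h =>
    ContinuousWithinAt.closure_le hcl hf.continuousWithinAt hg.continuousWithinAt h
  have hZ1 : 1 / 2 ≤ x.1 := le_of (fun _ => 1 / 2) (fun y => y.1) (by fun_prop) (by fun_prop)
    (fun y hy => hy.1.le)
  have hZ2 : x.1 ≤ 1 := le_of (fun y => y.1) (fun _ => 1) (by fun_prop) (by fun_prop)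
    (fun y hy => hy.2.1)
  have hn1 : κ ^ 2 ≤ x.2.1 := le_of (fun _ => κ ^ 2) (fun y => y.2.1) (by fun_prop) (by fun_prop)
    (fun y hy => (hVBD κ h0 h1 y hy).1)
  have hk1 : κ ^ 2 ≤ x.2.2.1 := le_of (fun _ => κ ^ 2) (fun y => y.2.2.1) (by fun_prop)
    (by fun_prop) (fun y hy => (hVBD κ h0 h1 y hy).2.2.1)
  have hZp : 0 < x.1 := by linarith
  have hnp : 0 < x.2.1 := by linarith
  have hkp : 0 < x.2.2.1 := by linarith
  have cl : ContinuousAt lx x := by
    unfold lx La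
    have : x.2.1 ^ 2 ≠ 0 := by positivity
    fun_prop (disch := assumption)
  have cl' : ContinuousAt (fun y : ℝ × ℝ × ℝ × ℝ × ℝ => La y.1 y.2.1 y.2.2.1 y.2.2.2.1 y.2.2.2.2) x := cl
  have cw : ContinuousAt wx x := by
    unfold wx Wd
    have : (x.2.1 * x.2.2.1) ^ 2 ≠ 0 := by positivity
    fun_prop (disch := assumption)
  have cw' : ContinuousAt (fun y : ℝ × ℝ × ℝ × ℝ × ℝ => Wd y.1 y.2.1 y.2.2.1 y.2.2.2.1 y.2.2.2.2) x := cw
  have hl1 : κ ≤ lx x := le_of (fun _ => κ) lx (by fun_prop) cl (fun y hy => hy.2.2.2.2.1)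
  have hw1 : 1 / 2 ≤ wx x := le_of (fun _ => 1 / 2) wx (by fun_prop) cw
    (fun y hy => hy.2.2.2.2.2.2.1.le)
  have hw2 : wx x ≤ 1 := le_of wx (fun _ => 1) cw (by fun_prop) (fun y hy => hy.2.2.2.2.2.2.2.1)
  have csw : ContinuousAt (fun y => √ (wx y)) x := cw.sqrt
  have csl : ContinuousAt (fun y => √ (lx y)) x := cl.sqrt
  have hl2 : lx x ≤ √ (wx x) := le_of lx (fun y => √ (wx y)) cl csw
    (fun y hy => hy.2.2.2.2.2.1)
  have hlp : 0 < lx x := by linarith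
  have hwp : 0 < wx x := by linarith
  have hslp : 0 < √ (lx x) := Real.sqrt_pos.mpr hlp
  have hsZp : 0 < √ x.1 := Real.sqrt_pos.mpr hZp
  have cs1 : ContinuousAt sx x := by
    have hne : 2 * x.1 * √ (lx x) ≠ 0 := by positivity
    have : ContinuousAt (fun y : ℝ × ℝ × ℝ × ℝ × ℝ =>
      y.2.1 * √ (wx y) / (2 * y.1 * √ (lx y))) x := by
      refine ContinuousAt.div ?_ ?_ hne
      · exact (by fun_prop : ContinuousAt (fun y : ℝ × ℝ × ℝ × ℝ × ℝ => y.2.1) x).mul csw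
      · exact (by fun_prop : ContinuousAt (fun y : ℝ × ℝ × ℝ × ℝ × ℝ => 2 * y.1) x).mul csl
    exact this
  have cs2 : ContinuousAt tx x := by
    have hne : 2 * √ x.1 * lx x ≠ 0 := by positivity
    have : ContinuousAt (fun y : ℝ × ℝ × ℝ × ℝ × ℝ =>
      y.2.2.1 * √ (wx y) / (2 * √ y.1 * lx y)) x := by
      refine ContinuousAt.div ?_ ?_ hne
      · exact (by fun_prop : ContinuousAt (fun y : ℝ × ℝ × ℝ × ℝ × ℝ => y.2.2.1) x).mul csw
      · refine ContinuousAt.mul ?_ cl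
        exact continuousAt_const.mul (ContinuousAt.sqrt (by fun_prop))
    exact this
  have hs1 : κ ≤ sx x := le_of (fun _ => κ) sx (by fun_prop) cs1
    (fun y hy => hy.2.2.2.2.2.2.2.2.1)
  have hs2 : κ ≤ tx x := le_of (fun _ => κ) tx (by fun_prop) cs2
    (fun y hy => hy.2.2.2.2.2.2.2.2.2)
  refine ⟨hZp, hnp, hkp, ⟨hlp, hwp⟩, ?_⟩
  by_contra hC
  have hC' : ¬ (x.1 = 1 / 2 ∨ x.1 = 1 ∨ lx x = κ ∨ lx x = √ (wx x) ∨ wx x = 1 / 2 ∨ wx x = 1 ∨
    sx x = κ ∨ tx x = κ) := hC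
  push Not at hC'
  obtain ⟨e1, e2, e3, e4, e5, e6, e7, e8⟩ := hC'
  apply hni
  rw [mem_interior_iff_mem_nhds]
  have lt_of : ∀ f g : ℝ × ℝ × ℝ × ℝ × ℝ → ℝ, ContinuousAt f x → ContinuousAt g x →
      f x < g x → ∀ᶠ y in 𝓝 x, f y < g y := fun f g hf hg h => hf.eventually_lt hg h
  filter_upwards [lt_of (fun _ => 1 / 2) (fun y => y.1) (by fun_prop) (by fun_prop)
      (lt_of_le_of_ne hZ1 (Ne.symm e1)),
    lt_of (fun y => y.1) (fun _ => 1) (by fun_prop) (by fun_prop) (lt_of_le_of_ne hZ2 e2),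
    lt_of (fun _ => 0) (fun y => y.2.1) (by fun_prop) (by fun_prop) hnp,
    lt_of (fun _ => 0) (fun y => y.2.2.1) (by fun_prop) (by fun_prop) hkp,
    lt_of (fun _ => κ) lx (by fun_prop) cl (lt_of_le_of_ne hl1 (Ne.symm e3)),
    lt_of lx (fun y => √ (wx y)) cl csw (lt_of_le_of_ne hl2 e4),
    lt_of (fun _ => 1 / 2) wx (by fun_prop) cw (lt_of_le_of_ne hw1 (Ne.symm e5)),
    lt_of wx (fun _ => 1) cw (by fun_prop) (lt_of_le_of_ne hw2 e6),
    lt_of (fun _ => κ) sx (by fun_prop) cs1 (lt_of_le_of_ne hs1 (Ne.symm e7)),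
    lt_of (fun _ => κ) tx (by fun_prop) cs2 (lt_of_le_of_ne hs2 (Ne.symm e8))]
    with y a1 a2 a3 a4 a5 a6 a7 a8 a9 a10
  exact ⟨a1, a2.le, a3, a4, a5.le, a6.le, a7, a8.le, a9.le, a10.le⟩

end VFRaux

theorem VFR (hVCV : VCV_stmt) (hVBD : VBD_stmt) : VFR_stmt := by
  intro κ h0 h1
  exact measure_mono_null (VFRaux.frontier_sub hVBD κ h0 h1) (VFRaux.Ns_null hVCV κ)

end Pool.Agent.T5V
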